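import Pool.Agent.W904.PG.T2
import Pool.Agent.W619.Y.Stm5

/-!
# PG-UNI (for helper619): if `Y` is uniruled, so is the product with curves
-/

set_option autoImplicit false
set_option linter.unusedSectionVars false
set_option linter.overlappingInstances false

universe u v

namespace Pool.Agent.W904.PG

open scoped TensorProduct
open FF IntermediateField Pool.Agent.W619.PQ Pool.Agent.W619.PL Pool.Agent.W619.TW
  Pool.Agent.W603.LV Pool.Agent.W619.Y

section step1

variable {k : Type v} {L : Type u} [Field k] [IsAlgClosed k] [Field L] [Algebra k L]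

omit [IsAlgClosed k] in
theorem alg_up (P : IntermediateField k L) {S : Set L} {z : L}
    (hz : IsAlgebraic (Algebra.adjoin k S) z) : IsAlgebraic (Algebra.adjoin P S) z := by
  have hle : Algebra.adjoin k S ≤ (Algebra.adjoin P S).restrictScalars k :=
    Algebra.adjoin_le Algebra.subset_adjoin
  let g : Algebra.adjoin k S →ₐ[k] (Algebra.adjoin P S).restrictScalars k :=
    Subalgebra.inclusion hle
  let g2 : Algebra.adjoin k S →+* Algebra.adjoin P S := g.toRingHom
  have h2 := IsAlgebraic.ringHom_of_comp_eq (R := Algebra.adjoin k S) (A := L)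
      (S := Algebra.adjoin P S) (B := L) g2 (RingHom.id L) hz ?_ ?_
  · exact h2
  · intro a b hab
    exact Subalgebra.inclusion_injective hle hab
  · ext z
    rfl

omit [IsAlgClosed k] in
theorem indep (M P : IntermediateField k L) (d n : ℕ) (hM : Algebra.trdeg k M = d)
    (hL : Algebra.trdeg k L = (d + n : ℕ)) (hP : Algebra.trdeg k P ≤ n) (hsup : M ⊔ P = ⊤)
    (s : Set M) (hs : IsTranscendenceBasis k ((↑) : s → M)) :
    AlgebraicIndependent P (fun i : s => ((i : M) : L)) := by
  have hcard : Cardinal.mk s = d := by rw [← hM, hs.cardinalMk_eq_trdeg]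
  have hfin : Finite s := by
    rw [← Cardinal.lt_aleph0_iff_finite, hcard]
    exact Cardinal.natCast_lt_aleph0
  have halg : Algebra.IsAlgebraic (Algebra.adjoin P (Set.range fun i : s => ((i : M) : L))) L := by
    constructor
    intro z
    have h1 : M ⊔ P ≤ (acl P (Set.range fun i : s => ((i : M) : L))).restrictScalars k := by
      refine sup_le ?_ ?_
      · intro z hz
        exact alg_up P (le_acl_of_basis M _ hs hz)
      · intro z hz
        exact (acl P (Set.range fun i : s => ((i : M) : L))).algebraMap_mem ⟨z, hz⟩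
    rw [hsup] at h1
    exact h1 (show z ∈ (⊤ : IntermediateField k L) from trivial)
  have htr : Cardinal.mk s ≤ Algebra.trdeg P L := by
    rw [hcard]
    by_contra hc
    push Not at hc
    have h2 := trdeg_add_eq k P (A := L)
    obtain ⟨m, hm⟩ := Cardinal.lt_aleph0.1 (hc.trans Cardinal.natCast_lt_aleph0)
    obtain ⟨p, hp⟩ := Cardinal.lt_aleph0.1 (hP.trans_lt Cardinal.natCast_lt_aleph0)
    rw [hm, hp, hL] at h2
    rw [hm] at hc
    rw [hp] at hP
    have e1 : p + m = d + n := by exact_mod_cast h2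
    have e2 : m < d := by exact_mod_cast hc
    have e3 : p ≤ n := by exact_mod_cast hP
    omega
  exact (Algebra.IsAlgebraic.isTranscendenceBasis_of_le_trdeg_of_finite P
    (fun i : s => ((i : M) : L)) htr).1

theorem prodInj (M P : IntermediateField k L) (d n : ℕ) (hM : Algebra.trdeg k M = d)
    (hL : Algebra.trdeg k L = (d + n : ℕ)) (hP : Algebra.trdeg k P ≤ n) (hsup : M ⊔ P = ⊤) :
    ∃ Φ : (P ⊗[k] M) →ₐ[k] L, Function.Injective Φ ∧ ∀ z : L, ∃ x y, z = Φ x / Φ y := by
  obtain ⟨s, hs⟩ := exists_isTranscendenceBasis k M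
  have h1 := T2 (k := k) (P := P) (M := M) (L := L) M.val _ hs (indep M P d n hM hL hP hsup s hs)
  let Φ' := Algebra.TensorProduct.productLeftAlgHom (Algebra.ofId P L) M.val
  let Φ : (P ⊗[k] M) →ₐ[k] L := Φ'.restrictScalars k
  have hΦt : ∀ p m, Φ (p ⊗ₜ[k] m) = (p : L) * (m : L) := by
    intro p m
    show Algebra.TensorProduct.productLeftAlgHom (Algebra.ofId P L) M.val (p ⊗ₜ[k] m) = _
    simp [Algebra.ofId_apply]
  refine ⟨Φ, h1, ?_⟩
  intro z
  have hz : z ∈ IntermediateField.adjoin k ((M : Set L) ∪ (P : Set L)) := by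
    have h2 : M ⊔ P ≤ IntermediateField.adjoin k ((M : Set L) ∪ (P : Set L)) :=
      sup_le (fun z hz => IntermediateField.subset_adjoin _ _ (Or.inl hz))
        (fun z hz => IntermediateField.subset_adjoin _ _ (Or.inr hz))
    rw [hsup] at h2
    exact h2 (show z ∈ (⊤ : IntermediateField k L) from trivial)
  rw [IntermediateField.mem_adjoin_iff_div] at hz
  obtain ⟨r, hr, t, ht, rfl⟩ := hz
  have h3 : Algebra.adjoin k ((M : Set L) ∪ (P : Set L)) ≤ Φ.range := by
    refine Algebra.adjoin_le ?_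
    rintro z (hz | hz)
    · exact ⟨(1 : P) ⊗ₜ[k] ⟨z, hz⟩, (hΦt _ _).trans (by simp)⟩
    · exact ⟨(⟨z, hz⟩ : P) ⊗ₜ[k] (1 : M), (hΦt _ _).trans (by simp)⟩
  obtain ⟨a, ha⟩ := h3 hr
  obtain ⟨b, hb⟩ := h3 ht
  exact ⟨a, b, by rw [← ha, ← hb]; rfl⟩

end step1

/-- `L` embeds into `Ω` if it is the field of fractions of `P ⊗ M`. -/
theorem embed {k : Type v} {P M L R Ω : Type u} [Field k] [IsAlgClosed k] [Field P] [Field M]
    [Field L] [Field R] [Field Ω] [Algebra k P] [Algebra k M] [Algebra k L] [Algebra k R]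
    [Algebra k Ω] (Φ : (P ⊗[k] M) →ₐ[k] L) (hΦ : Function.Injective Φ)
    (hsurj : ∀ z : L, ∃ x y, z = Φ x / Φ y) (j : M →ₐ[k] R)
    (θ : (P ⊗[k] R) →ₐ[k] Ω) (hθ : Function.Injective θ) : Nonempty (L →ₐ[k] Ω) := by
  let i0 : Algebra (P ⊗[k] M) L := Φ.toRingHom.toAlgebra
  have hmap : ∀ x : P ⊗[k] M, algebraMap (P ⊗[k] M) L x = Φ x := fun _ => rfl
  have i1 : IsScalarTower k (P ⊗[k] M) L := IsScalarTower.of_algebraMap_eq fun c => by
    rw [hmap, AlgHom.commutes]
  have i2 : FaithfulSMul (P ⊗[k] M) L := (faithfulSMul_iff_algebraMap_injective _ _).2 hΦ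
  have i3 : IsFractionRing (P ⊗[k] M) L := IsFractionRing.of_field (P ⊗[k] M) L hsurj
  let Ψ : (P ⊗[k] M) →ₐ[k] (P ⊗[k] R) := Algebra.TensorProduct.map (AlgHom.id k P) j
  have hΨ : Function.Injective Ψ := by
    have := Module.Flat.lTensor_preserves_injective_linearMap (M := P) j.toLinearMap
      j.toRingHom.injective
    exact this
  exact ⟨IsFractionRing.liftAlgHom (A := P ⊗[k] M) (K := L) (g := θ.comp Ψ) (hθ.comp hΨ)⟩



section step2

variable {k : Type v} [Field k]

/-- the trdeg of the field generated by the images of two fields -/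
theorem trdeg_sup {A B Ω : Type u} [Field A] [Field B] [Field Ω] [Algebra k A] [Algebra k B]
    [Algebra k Ω] (iA : A →ₐ[k] Ω) (iB : B →ₐ[k] Ω) :
    Algebra.trdeg k (iA.fieldRange ⊔ iB.fieldRange : IntermediateField k Ω) ≤
      Algebra.trdeg k A + Algebra.trdeg k B := by
  obtain ⟨s, hs⟩ := exists_isTranscendenceBasis k iA.fieldRange
  obtain ⟨t, ht⟩ := exists_isTranscendenceBasis k iB.fieldRange
  have e1 : Algebra.trdeg k A = Cardinal.mk s := by
    rw [hs.cardinalMk_eq_trdeg]
    exact (AlgEquiv.ofInjectiveField iA).trdeg_eq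
  have e2 : Algebra.trdeg k B = Cardinal.mk t := by
    rw [ht.cardinalMk_eq_trdeg]
    exact (AlgEquiv.ofInjectiveField iB).trdeg_eq
  rw [e1, e2]
  have h1 := le_acl_of_basis iA.fieldRange _ hs
  have h2 := le_acl_of_basis iB.fieldRange _ ht
  refine (trdeg_le_acl ((Set.range fun i : s => ((i : iA.fieldRange) : Ω)) ∪
    (Set.range fun i : t => ((i : iB.fieldRange) : Ω))) _ (sup_le
      (h1.trans (acl_mono Set.subset_union_left))
      (h2.trans (acl_mono Set.subset_union_right)))).trans ?_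
  refine (Cardinal.mk_union_le _ _).trans ?_
  exact add_le_add Cardinal.mk_range_le Cardinal.mk_range_le

theorem ess_sup {A B Ω : Type u} [Field A] [Field B] [Field Ω] [Algebra k A] [Algebra k B]
    [Algebra k Ω] (iA : A →ₐ[k] Ω) (iB : B →ₐ[k] Ω) (hA : Algebra.EssFiniteType k A)
    (hB : Algebra.EssFiniteType k B) :
    Algebra.EssFiniteType k (iA.fieldRange ⊔ iB.fieldRange : IntermediateField k Ω) := by
  have h1 : Algebra.EssFiniteType k iA.fieldRange :=
    .of_surjective (AlgEquiv.ofInjectiveField iA).toAlgHom (AlgEquiv.ofInjectiveField iA).surjective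
  have h2 : Algebra.EssFiniteType k iB.fieldRange :=
    .of_surjective (AlgEquiv.ofInjectiveField iB).toAlgHom (AlgEquiv.ofInjectiveField iB).surjective
  rw [IntermediateField.essFiniteType_iff] at h1 h2 ⊢
  exact IntermediateField.fg_sup h1 h2

/-- the field of fractions of `P ⊗ M'(X)` is a rational function field -/
theorem ratl {P M' Ω : Type u} [Field P] [Field M'] [Field Ω] [Algebra k P] [Algebra k M']
    [Algebra k Ω] (θ : (P ⊗[k] RatFunc M') →ₐ[k] Ω) (hs : ∀ z : Ω, ∃ x y, z = θ x / θ y)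
    (N m : ℕ) (hP : Algebra.trdeg k P ≤ N) (hM : Algebra.trdeg k M' = m)
    (hΩ : ((N + m + 1 : ℕ) : Cardinal) ≤ Algebra.trdeg k Ω) (hPe : Algebra.EssFiniteType k P)
    (hMe : Algebra.EssFiniteType k M') :
    ∃ N0 : IntermediateField k Ω, Algebra.EssFiniteType k N0 ∧
      Algebra.trdeg k N0 = (N + m : ℕ) ∧ Nonempty (Ω →ₐ[k] RatFunc N0) := by
  let iP : P →ₐ[k] Ω := θ.comp Algebra.TensorProduct.includeLeft
  let iR : RatFunc M' →ₐ[k] Ω := θ.comp Algebra.TensorProduct.includeRight
  let iM : M' →ₐ[k] Ω := iR.comp (IsScalarTower.toAlgHom k M' (RatFunc M'))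
  obtain ⟨N0, hN0⟩ : ∃ N : IntermediateField k Ω, N = iP.fieldRange ⊔ iM.fieldRange := ⟨_, rfl⟩
  let t : Ω := iR RatFunc.X
  have hmemP : ∀ p : P, iP p ∈ N0 := fun p => by
    rw [hN0]
    exact (le_sup_left : iP.fieldRange ≤ iP.fieldRange ⊔ iM.fieldRange) ⟨p, rfl⟩
  have hmemM : ∀ c : M', iM c ∈ N0 := fun c => by
    rw [hN0]
    exact (le_sup_right : iM.fieldRange ≤ iP.fieldRange ⊔ iM.fieldRange) ⟨c, rfl⟩
  have hgen : IntermediateField.adjoin N0 ({t} : Set Ω) = ⊤ := by
    have hN : ∀ z ∈ N0, z ∈ IntermediateField.adjoin N0 ({t} : Set Ω) := fun z hz =>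
      (IntermediateField.adjoin N0 ({t} : Set Ω)).algebraMap_mem ⟨z, hz⟩
    have ht : t ∈ IntermediateField.adjoin N0 ({t} : Set Ω) :=
      IntermediateField.subset_adjoin _ _ rfl
    have hpol : ∀ p : Polynomial M', iR (algebraMap (Polynomial M') (RatFunc M') p) ∈
        IntermediateField.adjoin N0 ({t} : Set Ω) := by
      intro p
      induction p using Polynomial.induction_on' with
      | add p q hp hq => rw [map_add, map_add]; exact add_mem hp hq
      | monomial n a =>
        rw [← Polynomial.C_mul_X_pow_eq_monomial, map_mul, map_mul, map_pow, map_pow,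
          RatFunc.algebraMap_C, RatFunc.algebraMap_X]
        refine mul_mem (hN _ ?_) (pow_mem ht n)
        exact hmemM a
    have hrat : ∀ g : RatFunc M', iR g ∈ IntermediateField.adjoin N0 ({t} : Set Ω) := by
      intro g
      rw [← RatFunc.num_div_denom g, map_div₀]
      exact div_mem (hpol _) (hpol _)
    have hten : ∀ x : P ⊗[k] RatFunc M', θ x ∈ IntermediateField.adjoin N0 ({t} : Set Ω) := by
      intro x
      induction x using TensorProduct.induction_on with
      | zero => rw [map_zero]; exact zero_mem _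
      | tmul p g =>
        have : p ⊗ₜ[k] g = (p ⊗ₜ[k] (1 : RatFunc M')) * ((1 : P) ⊗ₜ[k] g) := by
          rw [Algebra.TensorProduct.tmul_mul_tmul, mul_one, one_mul]
        rw [this, map_mul]
        exact mul_mem (hN _ (hmemP p)) (hrat g)
      | add x y hx hy => rw [map_add]; exact add_mem hx hy
    refine eq_top_iff.2 fun z _ => ?_
    obtain ⟨x, y, rfl⟩ := hs z
    exact div_mem (hten x) (hten y)
  have htr : Algebra.trdeg k N0 ≤ (N + m : ℕ) := by
    rw [hN0]
    refine (trdeg_sup iP iM).trans ?_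
    rw [hM, Nat.cast_add]
    exact add_le_add hP le_rfl
  have hadd := trdeg_add_eq k N0 (A := Ω)
  obtain ⟨a, ha⟩ := Cardinal.lt_aleph0.1 (htr.trans_lt Cardinal.natCast_lt_aleph0)
  have ha1 : a ≤ N + m := by rw [ha] at htr; exact_mod_cast htr
  have hacl : ∀ S : Set Ω, t ∈ acl N0 S → Algebra.trdeg N0 Ω ≤ Cardinal.mk S := by
    intro S hS
    have h1 : Algebra.IsAlgebraic (Algebra.adjoin N0 S) Ω := by
      constructor
      intro z
      have h2 : IntermediateField.adjoin N0 ({t} : Set Ω) ≤ acl N0 S := by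
        rw [IntermediateField.adjoin_le_iff]
        rintro _ rfl
        exact hS
      rw [hgen] at h2
      exact h2 (show z ∈ (⊤ : IntermediateField N0 Ω) from trivial)
    exact Algebra.IsAlgebraic.trdeg_le_cardinalMk N0 S
  have hc1 : Algebra.trdeg N0 Ω ≤ 1 := by
    have := hacl {t} (subset_acl _ rfl)
    rwa [Cardinal.mk_singleton] at this
  obtain ⟨c, hc⟩ := Cardinal.lt_aleph0.1 (hc1.trans_lt Cardinal.one_lt_aleph0)
  have hc2 : c ≤ 1 := by rw [hc] at hc1; exact_mod_cast hc1
  rw [ha, hc] at hadd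
  have hac : N + m + 1 ≤ a + c := by
    rw [← hadd] at hΩ
    exact_mod_cast hΩ
  have ht : Transcendental N0 t := by
    intro halg
    have h3 : t ∈ acl N0 (∅ : Set Ω) := by
      rw [mem_acl]
      obtain ⟨p, hp0, hp⟩ := halg
      refine ⟨p.map (algebraMap N0 (Algebra.adjoin N0 (∅ : Set Ω))), ?_, ?_⟩
      · exact Polynomial.map_ne_zero hp0
      · rw [Polynomial.aeval_map_algebraMap]
        exact hp
    have h4 := hacl ∅ h3
    rw [Cardinal.mk_eq_zero, hc] at h4
    have h5 : c ≤ 0 := by exact_mod_cast h4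
    omega
  refine ⟨N0, by rw [hN0]; exact ess_sup iP iM hPe hMe, ?_, ?_⟩
  · rw [ha]
    have : a = N + m := by omega
    rw [this]
  · let E : RatFunc N0 ≃ₐ[N0] Ω := (RatFunc.algEquivOfTranscendental t ht).trans
      ((IntermediateField.equivOfEq hgen).trans IntermediateField.topEquiv)
    exact ⟨(E.symm.toAlgHom).restrictScalars k⟩

end step2

theorem fin1 {k : Type v} {P M M' L : Type u} [Field k] [IsAlgClosed k] [Field P] [Field M]
    [Field L] [Field M'] [Algebra k P] [Algebra k M] [Algebra k L] [Algebra k M']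
    (Φ : (P ⊗[k] M) →ₐ[k] L) (hΦ : Function.Injective Φ)
    (hsurj : ∀ z : L, ∃ x y, z = Φ x / Φ y) (j : M →ₐ[k] RatFunc M') (n m : ℕ)
    (hP : Algebra.trdeg k P ≤ n) (hm : Algebra.trdeg k M' = m)
    (hL : Algebra.trdeg k L = (n + m + 1 : ℕ)) (hPe : Algebra.EssFiniteType k P)
    (hess : Algebra.EssFiniteType k M') : IsUniruled k L (n + m + 1) := by
  have hdom : IsDomain (P ⊗[k] RatFunc M') := dom
  obtain ⟨e⟩ := embed Φ hΦ hsurj j
    (IsScalarTower.toAlgHom k (P ⊗[k] RatFunc M') (FractionRing (P ⊗[k] RatFunc M')))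
    (IsFractionRing.injective (P ⊗[k] RatFunc M') (FractionRing (P ⊗[k] RatFunc M')))
  obtain ⟨N0, h1, h2, ⟨g⟩⟩ := ratl
    (IsScalarTower.toAlgHom k (P ⊗[k] RatFunc M') (FractionRing (P ⊗[k] RatFunc M'))) (by
      intro z
      obtain ⟨x, y, -, rfl⟩ := IsFractionRing.div_surjective (A := P ⊗[k] RatFunc M') z
      exact ⟨x, y, rfl⟩) n m hP hm (by
      have h3 := trdeg_le_of_injective e e.toRingHom.injective
      rw [hL] at h3
      exact h3) hPe hess
  refine ⟨N0, inferInstance, inferInstance, h1, ?_, ⟨g.comp e⟩⟩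
  rw [h2]
  push_cast
  ring

theorem main1 {k : Type v} {L : Type u} [Field k] [IsAlgClosed k] [Field L] [Algebra k L]
    (M P : IntermediateField k L) (d n : ℕ) (hM : Algebra.trdeg k M = d)
    (hL : Algebra.trdeg k L = (d + n : ℕ)) (hP : Algebra.trdeg k P ≤ n) (hsup : M ⊔ P = ⊤)
    (hPe : Algebra.EssFiniteType k P) (hU : IsUniruled k M d) : IsUniruled k L (d + n) := by
  obtain ⟨M', iF, iA, hess, htr, ⟨j⟩⟩ := hU
  have hm : ∃ m : ℕ, Algebra.trdeg k M' = m := by
    have h1 : Algebra.trdeg k M' ≤ d := by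
      rw [← htr]
      exact le_self_add
    obtain ⟨m, hm⟩ := Cardinal.lt_aleph0.1 (h1.trans_lt Cardinal.natCast_lt_aleph0)
    exact ⟨m, hm⟩
  obtain ⟨m, hm⟩ := hm
  have hmd : m + 1 = d := by
    rw [hm] at htr
    exact_mod_cast htr
  obtain ⟨Φ, hΦ, hsurj⟩ := prodInj M P d n hM hL hP hsup
  have e : d + n = n + m + 1 := by omega
  rw [e] at hL ⊢
  exact fin1 Φ hΦ hsurj j n m hP hm hL hPe hess

theorem main : S_UNI.{u, v} := by
  intro k L _ _ _ _ _ d n M F hF hM hL hsup hU
  have hfg : (⨆ i, F i).FG := IntermediateField.fg_iSup fun i =>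
    IntermediateField.essFiniteType_iff.1 (hF i).ess
  have h1 : ∀ i, ∃ f : F i, Transcendental k f := fun i => (hF i).exists_transcendental
  choose f hf using h1
  have h2 : (⨆ i, F i) ≤ acl k (Set.range fun i => (f i : L)) := by
    refine iSup_le fun i => ?_
    have h3 := le_acl_of_basis (F i) _ (IsFF.basis (hf i))
    refine h3.trans (acl_mono ?_)
    rintro _ ⟨_, rfl⟩
    exact ⟨i, rfl⟩
  generalize (⨆ i, F i) = P at *
  have hPe : Algebra.EssFiniteType k P := IntermediateField.essFiniteType_iff.2 hfg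
  have hP : Algebra.trdeg k P ≤ n := by
    refine (trdeg_le_acl _ _ h2).trans ?_
    have h4 := Cardinal.mk_range_le_lift (f := fun i : Fin n => (f i : L))
    simpa using h4
  exact main1 M P d n hM hL hP hsup hPe hU

end Pool.Agent.W904.PG
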