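import Mathlib

/-!
# PG-UNI, part 1 (for helper619): tensor products over an algebraically closed field
-/

set_option autoImplicit false
set_option linter.unusedSectionVars false

universe u v w

namespace Pool.Agent.W904.PG

open scoped TensorProduct

variable {k : Type v} [Field k] [IsAlgClosed k]

/-- The points of an affine variety over an algebraically closed field are dense. -/
theorem exists_point {A : Type u} [CommRing A] [IsDomain A] [Algebra k A]
    [Algebra.FiniteType k A] {c : A} (hc : c ≠ 0) : ∃ φ : A →ₐ[k] k, φ c ≠ 0 := by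
  let D := Localization.Away c
  have hnt : Nontrivial D := by
    have : IsDomain D := IsLocalization.isDomain_localization
      (powers_le_nonZeroDivisors_of_noZeroDivisors hc)
    infer_instance
  have hftD : Algebra.FiniteType k D := by
    have h1 : Algebra.FiniteType A D :=
      IsLocalization.finiteType_of_monoid_fg (Submonoid.powers c) D
    exact Algebra.FiniteType.trans inferInstance h1
  obtain ⟨M, hM⟩ := Ideal.exists_maximal D
  let _ : Field (D ⧸ M) := Ideal.Quotient.field M
  have hfin : Module.Finite k (D ⧸ M) := finite_of_finite_type_of_isJacobsonRing k (D ⧸ M)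
  have hbij : Function.Bijective (algebraMap k (D ⧸ M)) :=
    IsAlgClosed.algebraMap_bijective_of_isIntegral
  let e : k ≃ₐ[k] (D ⧸ M) := AlgEquiv.ofBijective (Algebra.ofId k (D ⧸ M)) hbij
  let φ : A →ₐ[k] k := (e.symm : (D ⧸ M) →ₐ[k] k).comp
    ((Ideal.Quotient.mkₐ k M).comp (IsScalarTower.toAlgHom k A D))
  refine ⟨φ, ?_⟩
  have hu : IsUnit (algebraMap A D c) :=
    IsLocalization.map_units D (⟨c, Submonoid.mem_powers c⟩ : Submonoid.powers c)
  have h1 : IsUnit (φ c) := hu.map ((e.symm : (D ⧸ M) →ₐ[k] k).comp (Ideal.Quotient.mkₐ k M))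
  exact h1.ne_zero

theorem nzd_fin {A : Type u} [CommRing A] [IsDomain A] [Algebra k A]
    [Algebra.FiniteType k A] {A' : Type w} [CommRing A'] [IsDomain A'] [Algebra k A']
    (x y : A ⊗[k] A') (hxy : x * y = 0) : x = 0 ∨ y = 0 := by
  classical
  let b := Module.Basis.ofVectorSpace k A'
  let bA := Algebra.TensorProduct.basis A b
  by_contra hcon
  push Not at hcon
  obtain ⟨hx, hy⟩ := hcon
  obtain ⟨i, hi⟩ : ∃ i, bA.repr x i ≠ 0 := by
    by_contra h
    push Not at h
    apply hx
    apply bA.repr.injective
    rw [map_zero]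
    ext i
    exact h i
  obtain ⟨l, hl⟩ : ∃ i, bA.repr y i ≠ 0 := by
    by_contra h
    push Not at h
    apply hy
    apply bA.repr.injective
    rw [map_zero]
    ext i
    exact h i
  obtain ⟨φ, hφ⟩ := exists_point (k := k) (mul_ne_zero hi hl)
  rw [map_mul] at hφ
  let e : A ⊗[k] A' →ₐ[k] A' := Algebra.TensorProduct.lift ((Algebra.ofId k A').comp φ)
    (AlgHom.id k A') (fun _ _ => Commute.all _ _)
  have he : ∀ z i, b.repr (e z) i = φ (bA.repr z i) := by
    intro z i
    induction z using TensorProduct.induction_on with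
    | zero => simp
    | tmul a a' =>
      rw [Algebra.TensorProduct.basis_repr_tmul]
      have h1 : e (a ⊗ₜ a') = φ a • a' := by
        rw [Algebra.TensorProduct.lift_tmul, Algebra.smul_def]
        rfl
      rw [h1, map_smul, Finsupp.smul_apply, Finsupp.smul_apply, Finsupp.mapRange_apply,
        smul_eq_mul, smul_eq_mul, map_mul, AlgHom.commutes]
      rfl
    | add z z' hz hz' =>
      rw [map_add, map_add, map_add, Finsupp.add_apply, Finsupp.add_apply, map_add, hz, hz']
  have h1 : e x ≠ 0 := by
    intro h
    have := he x i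
    rw [h, map_zero, Finsupp.zero_apply] at this
    exact hφ (by rw [← this, zero_mul])
  have h2 : e y ≠ 0 := by
    intro h
    have := he y l
    rw [h, map_zero, Finsupp.zero_apply] at this
    exact hφ (by rw [← this, mul_zero])
  have h3 : e x * e y = 0 := by rw [← map_mul, hxy, map_zero]
  rcases mul_eq_zero.1 h3 with h | h
  · exact h1 h
  · exact h2 h

omit [IsAlgClosed k] in
theorem fgsub {A : Type u} [CommRing A] [Algebra k A] {B : Type w} [CommRing B] [Algebra k B]
    (x : A ⊗[k] B) : ∃ S : Finset A, ∀ T : Subalgebra k A, (S : Set A) ⊆ T →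
      ∃ z : T ⊗[k] B, Algebra.TensorProduct.map T.val (AlgHom.id k B) z = x := by
  classical
  induction x using TensorProduct.induction_on with
  | zero => exact ⟨∅, fun T _ => ⟨0, map_zero _⟩⟩
  | tmul a b =>
    refine ⟨{a}, fun T hT => ⟨(⟨a, hT (by simp)⟩ : T) ⊗ₜ b, ?_⟩⟩
    rw [Algebra.TensorProduct.map_tmul]
    rfl
  | add x y hx hy =>
    obtain ⟨S, hS⟩ := hx
    obtain ⟨S', hS'⟩ := hy
    refine ⟨S ∪ S', fun T hT => ?_⟩
    rw [Finset.coe_union] at hT
    obtain ⟨z, hz⟩ := hS T (Set.subset_union_left.trans hT)
    obtain ⟨z', hz'⟩ := hS' T (Set.subset_union_right.trans hT)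
    exact ⟨z + z', by rw [map_add, hz, hz']⟩

/-- The tensor product of two domains over an algebraically closed field is a domain. -/
theorem dom {A : Type u} [CommRing A] [IsDomain A] [Algebra k A] {B : Type w} [CommRing B]
    [IsDomain B] [Algebra k B] : IsDomain (A ⊗[k] B) := by
  classical
  have hnt : Nontrivial (A ⊗[k] B) := by
    have h1 : Function.Injective (algebraMap k A) := FaithfulSMul.algebraMap_injective k A
    have h2 : Function.Injective (algebraMap k B) := FaithfulSMul.algebraMap_injective k B
    exact Algebra.TensorProduct.nontrivial_of_algebraMap_injective_of_flat_left k A B h2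
  have hnz : NoZeroDivisors (A ⊗[k] B) := by
    constructor
    intro x y hxy
    obtain ⟨S, hS⟩ := fgsub x
    obtain ⟨S', hS'⟩ := fgsub y
    let T : Subalgebra k A := Algebra.adjoin k (↑(S ∪ S') : Set A)
    have hT : (↑(S ∪ S') : Set A) ⊆ T := Algebra.subset_adjoin
    rw [Finset.coe_union] at hT
    obtain ⟨z, hz⟩ := hS T (Set.subset_union_left.trans hT)
    obtain ⟨z', hz'⟩ := hS' T (Set.subset_union_right.trans hT)
    have hinj : Function.Injective (Algebra.TensorProduct.map T.val (AlgHom.id k B)) := by
      have := Module.Flat.rTensor_preserves_injective_linearMap (M := B) T.val.toLinearMap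
        Subtype.val_injective
      exact this
    have hft : Algebra.FiniteType k T := by
      rw [← Subalgebra.fg_iff_finiteType]
      exact ⟨S ∪ S', rfl⟩
    rw [← hz, ← hz', ← map_mul] at hxy
    have h3 : z * z' = 0 := hinj (by rw [hxy, map_zero])
    rcases nzd_fin z z' h3 with h | h
    · left; rw [← hz, h, map_zero]
    · right; rw [← hz', h, map_zero]
  exact NoZeroDivisors.to_isDomain _

end Pool.Agent.W904.PG
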