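import Pool.Agent.W904.PG.T1

/-!
# PG-UNI, part 2 (for helper619): algebraic independence and linear disjointness
-/

set_option autoImplicit false
set_option linter.unusedSectionVars false

universe u v w

namespace Pool.Agent.W904.PG

open scoped TensorProduct

theorem T2 {k : Type v} {P M L : Type u} [Field k] [IsAlgClosed k] [Field P] [Field M] [Field L]
    [Algebra k P] [Algebra k M] [Algebra P L] [Algebra k L] [IsScalarTower k P L]
    (f : M →ₐ[k] L) {ι : Type w} (y : ι → M) (hy : IsTranscendenceBasis k y)
    (hind : AlgebraicIndependent P (fun i => f (y i))) :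
    Function.Injective (Algebra.TensorProduct.productLeftAlgHom (Algebra.ofId P L) f) := by
  classical
  have hD : IsDomain (P ⊗[k] M) := dom
  set Φ := Algebra.TensorProduct.productLeftAlgHom (Algebra.ofId P L) f with hΦ
  have hΦt : ∀ p m, Φ (p ⊗ₜ[k] m) = algebraMap P L p * f m := by
    intro p m
    rw [hΦ]
    simp [Algebra.ofId_apply]
  let α : MvPolynomial ι P →ₐ[P] P ⊗[k] M := MvPolynomial.aeval (fun i => (1 : P) ⊗ₜ[k] y i)
  let _ : Algebra (MvPolynomial ι P) (P ⊗[k] M) := α.toRingHom.toAlgebra
  have hαC : ∀ p : P, algebraMap (MvPolynomial ι P) (P ⊗[k] M) (MvPolynomial.C p) = p ⊗ₜ 1 := by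
    intro p
    show α (MvPolynomial.C p) = _
    rw [MvPolynomial.aeval_C]
    rfl
  have hΦα : ∀ q : MvPolynomial ι P, Φ (algebraMap (MvPolynomial ι P) (P ⊗[k] M) q) =
      MvPolynomial.aeval (fun i => f (y i)) q := by
    intro q
    show Φ (α q) = _
    have : Φ.comp α = MvPolynomial.aeval (fun i => f (y i)) := by
      apply MvPolynomial.algHom_ext
      intro i
      rw [AlgHom.comp_apply, MvPolynomial.aeval_X, MvPolynomial.aeval_X, hΦt, map_one, one_mul]
    exact congrArg (fun g => g q) this
  have hinjα : Function.Injective (algebraMap (MvPolynomial ι P) (P ⊗[k] M)) := by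
    intro a b hab
    have h1 := congrArg Φ hab
    rw [hΦα, hΦα] at h1
    exact hind h1
  -- all elements are algebraic
  have halgM : ∀ m : M, IsAlgebraic (MvPolynomial ι P) ((1 : P) ⊗ₜ[k] m) := by
    intro m
    have h1 : IsAlgebraic (Algebra.adjoin k (Set.range y)) m := hy.isAlgebraic.isAlgebraic m
    let e := hy.1.aevalEquiv
    let g : Algebra.adjoin k (Set.range y) →+* MvPolynomial ι P :=
      (MvPolynomial.map (algebraMap k P)).comp (e.symm : _ →+* MvPolynomial ι k)
    have hg : Function.Injective g := by
      intro a b hab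
      apply e.symm.injective
      exact MvPolynomial.map_injective (algebraMap k P) (algebraMap k P).injective hab
    have h2 := IsAlgebraic.ringHom_of_comp_eq (R := Algebra.adjoin k (Set.range y)) (A := M)
      (S := MvPolynomial ι P) (B := P ⊗[k] M) g
      (Algebra.TensorProduct.includeRight : M →ₐ[k] P ⊗[k] M).toRingHom h1 hg ?_
    · exact h2
    · ext z
      obtain ⟨q, rfl⟩ := e.surjective z
      have e1 : g (e q) = MvPolynomial.map (algebraMap k P) q := by
        show MvPolynomial.map (algebraMap k P) (e.symm (e q)) = _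
        rw [AlgEquiv.symm_apply_apply]
      show algebraMap (MvPolynomial ι P) (P ⊗[k] M) (g (e q)) =
        (1 : P) ⊗ₜ[k] (algebraMap (Algebra.adjoin k (Set.range y)) M (e q))
      rw [e1]
      have e2 : algebraMap (Algebra.adjoin k (Set.range y)) M (e q) = MvPolynomial.aeval y q :=
        hy.1.algebraMap_aevalEquiv q
      rw [e2]
      show α (MvPolynomial.map (algebraMap k P) q) = (1 : P) ⊗ₜ[k] (MvPolynomial.aeval y q)
      clear e1 e2
      induction q using MvPolynomial.induction_on with
      | C a =>
        rw [MvPolynomial.map_C, MvPolynomial.aeval_C, MvPolynomial.aeval_C]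
        show algebraMap k P a ⊗ₜ[k] (1 : M) = _
        rw [Algebra.algebraMap_eq_smul_one, Algebra.algebraMap_eq_smul_one,
          TensorProduct.smul_tmul]
      | add p q hp hq =>
        rw [map_add, map_add, map_add, TensorProduct.tmul_add, hp, hq]
      | mul_X p i hp =>
        rw [map_mul, map_mul, hp, MvPolynomial.map_X, MvPolynomial.aeval_X, map_mul,
          MvPolynomial.aeval_X, Algebra.TensorProduct.tmul_mul_tmul, one_mul]
  have halg : ∀ z : P ⊗[k] M, IsAlgebraic (MvPolynomial ι P) z := by
    intro z
    induction z using TensorProduct.induction_on with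
    | zero => exact isAlgebraic_zero
    | tmul p m =>
      have : p ⊗ₜ[k] m = algebraMap (MvPolynomial ι P) (P ⊗[k] M) (MvPolynomial.C p) *
          ((1 : P) ⊗ₜ[k] m) := by
        rw [hαC, Algebra.TensorProduct.tmul_mul_tmul, mul_one, one_mul]
      rw [this]
      exact (isAlgebraic_algebraMap _).mul (halgM m)
    | add x y hx hy => exact hx.add hy
  rw [injective_iff_map_eq_zero]
  intro x hx
  by_contra hx0
  have h1 := Ideal.comap_ne_bot_of_algebraic_mem (R := MvPolynomial ι P) (I := RingHom.ker Φ) hx0
    ((RingHom.mem_ker).2 hx) (halg x)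
  obtain ⟨q, hq, hq0⟩ := Submodule.exists_mem_ne_zero_of_ne_bot h1
  rw [Ideal.mem_comap, RingHom.mem_ker, hΦα] at hq
  exact hq0 (hind (by rw [hq, map_zero]))

section acl

variable {k : Type v} {E : Type u} [Field k] [Field E] [Algebra k E]

/-- the elements algebraic over the algebra generated by `S` -/
noncomputable def acl (k : Type v) {E : Type u} [Field k] [Field E] [Algebra k E] (S : Set E) :
    IntermediateField k E where
  carrier := {x | IsAlgebraic (Algebra.adjoin k S) x}
  mul_mem' := fun ha hb => ha.mul hb
  add_mem' := fun ha hb => ha.add hb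
  algebraMap_mem' := fun r => by
    have : algebraMap k E r = algebraMap (Algebra.adjoin k S) E (algebraMap k _ r) := rfl
    show IsAlgebraic (Algebra.adjoin k S) (algebraMap k E r)
    rw [this]
    exact isAlgebraic_algebraMap _
  inv_mem' := fun _ ha => ha.inv

theorem mem_acl {S : Set E} {x : E} : x ∈ acl k S ↔ IsAlgebraic (Algebra.adjoin k S) x := Iff.rfl

theorem subset_acl (S : Set E) : S ⊆ acl k S := by
  intro x hx
  have : x = algebraMap (Algebra.adjoin k S) E ⟨x, Algebra.subset_adjoin hx⟩ := rfl
  show IsAlgebraic (Algebra.adjoin k S) x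
  rw [this]
  exact isAlgebraic_algebraMap _

theorem isAlg_mono {S T : Set E} (h : S ⊆ T) {x : E}
    (hx : IsAlgebraic (Algebra.adjoin k S) x) : IsAlgebraic (Algebra.adjoin k T) x := by
  have h2 := IsAlgebraic.ringHom_of_comp_eq (R := Algebra.adjoin k S) (A := E)
      (S := Algebra.adjoin k T) (B := E)
      (Subalgebra.inclusion (Algebra.adjoin_mono h) : _ →ₐ[k] _).toRingHom
      (RingHom.id E) hx (Subalgebra.inclusion_injective _) ?_
  · exact h2
  · ext z
    rfl

theorem acl_mono {S T : Set E} (h : S ⊆ T) : acl k S ≤ acl k T := fun _ hx => isAlg_mono h hx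

/-- the transcendence degree of a subfield of `acl S` is at most `#S` -/
theorem trdeg_le_acl (S : Set E) (N : IntermediateField k E) (hN : N ≤ acl k S) :
    Algebra.trdeg k N ≤ Cardinal.mk S := by
  have h1 : Algebra.trdeg k N ≤ Algebra.trdeg k (acl k S) :=
    trdeg_le_of_injective (IntermediateField.inclusion hN)
      (IntermediateField.inclusion hN).injective
  refine h1.trans ?_
  let S' : Set (acl k S) := {x | (x : E) ∈ S}
  have h2 : Algebra.IsAlgebraic (Algebra.adjoin k S') (acl k S) := by
    constructor
    intro x
    have hx : IsAlgebraic (Algebra.adjoin k S) (x : E) := x.2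
    have hmap : (Algebra.adjoin k S').map (acl k S).val = Algebra.adjoin k S := by
      rw [AlgHom.map_adjoin]
      congr 1
      ext z
      constructor
      · rintro ⟨w, hw, rfl⟩
        exact hw
      · intro hz
        exact ⟨⟨z, subset_acl S hz⟩, hz, rfl⟩
    let g : Algebra.adjoin k S' ≃ₐ[k] (Algebra.adjoin k S').map (acl k S).val :=
      Subalgebra.equivMapOfInjective _ _ (acl k S).val.injective
    let g2 : Algebra.adjoin k S →ₐ[k] Algebra.adjoin k S' :=
      (g.symm : _ →ₐ[k] _).comp (Subalgebra.inclusion hmap.ge)
    have hg2 : ∀ z : Algebra.adjoin k S, (((g2 z : Algebra.adjoin k S') : acl k S) : E) = z := by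
      intro z
      have : g (g2 z) = Subalgebra.inclusion hmap.ge z := g.apply_symm_apply _
      have h3 := congrArg Subtype.val this
      exact h3
    have hg2i : Function.Injective g2 := by
      intro a b hab
      have := hg2 a
      rw [hab, hg2] at this
      exact Subtype.ext this.symm
    obtain ⟨p, hp0, hp⟩ := hx
    refine ⟨p.map g2.toRingHom, ?_, ?_⟩
    · rw [Ne, Polynomial.map_eq_zero_iff hg2i]
      exact hp0
    · apply Subtype.val_injective
      have h4 : ((Polynomial.aeval x (p.map g2.toRingHom) : acl k S) : E) =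
          Polynomial.aeval (x : E) p := by
        rw [Polynomial.aeval_def, Polynomial.aeval_def, Polynomial.eval₂_map]
        have := Polynomial.hom_eval₂ p ((algebraMap (Algebra.adjoin k S') (acl k S)).comp
          g2.toRingHom) (acl k S).val.toRingHom x
        refine this.trans ?_
        congr 1
        ext z
        exact hg2 z
      rw [h4, hp]
      rfl
  refine (Algebra.IsAlgebraic.trdeg_le_cardinalMk k S').trans ?_
  exact Cardinal.mk_le_of_injective (f := fun z : S' => (⟨((z : acl k S) : E), z.2⟩ : S))
    (fun a b hab => Subtype.ext (Subtype.ext (by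
      have h := congrArg (fun z : S => (z : E)) hab
      exact h)))

/-- a subfield is contained in `acl` of a transcendence basis -/
theorem le_acl_of_basis (N : IntermediateField k E) {ι : Type w} (y : ι → N)
    (hy : IsTranscendenceBasis k y) : N ≤ acl k (Set.range fun i => (y i : E)) := by
  intro z hz
  have h1 : IsAlgebraic (Algebra.adjoin k (Set.range y)) (⟨z, hz⟩ : N) :=
    hy.isAlgebraic.isAlgebraic _
  have hmap : (Algebra.adjoin k (Set.range y)).map N.val =
      Algebra.adjoin k (Set.range fun i => (y i : E)) := by
    rw [AlgHom.map_adjoin, ← Set.range_comp]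
    rfl
  let g : Algebra.adjoin k (Set.range y) →ₐ[k] Algebra.adjoin k (Set.range fun i => (y i : E)) :=
    (Subalgebra.inclusion hmap.le).comp
      (Subalgebra.equivMapOfInjective (Algebra.adjoin k (Set.range y)) N.val
        N.val.injective).toAlgHom
  have h2 := IsAlgebraic.ringHom_of_comp_eq (R := Algebra.adjoin k (Set.range y)) (A := N)
      (S := Algebra.adjoin k (Set.range fun i => (y i : E))) (B := E)
      g.toRingHom N.val.toRingHom h1 ?_ ?_
  · exact h2
  · intro a b hab
    have h3 := congrArg Subtype.val hab
    exact Subtype.ext (Subtype.ext h3)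
  · ext z
    rfl

end acl

end Pool.Agent.W904.PG
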